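import Pool.Agent.H945.Rf6

set_option autoImplicit false

/-!
# Complex conjugation and the torsor of de Rham-Betti classes: abelian surfaces with `End = ℤ` and K3 surfaces of Picard number 17

Let `A` be an abelian variety over `ℚ̄` and let `M` be any André motive over `ℚ̄` in the tensor category generated by
`h^1(A)` and the Tate motives. Let `P` be the matrix of the periods of `M`, and let `G ⊆ GL(H_B(M))` be *any* algebraic
group over `ℚ` such that the comparison isomorphism of `M` is a point of a torsor of `G` defined over `ℚ̄`: `P T ∈ G(ℂ)`
for some matrix `T` with algebraic entries. By theorems of Deligne and André the motivic Galois group of `M` is the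
Mumford-Tate group `MT(M)`. Grothendieck's conjecture predicts that every such `G` contains `MT(M)`, that is,
`Ω_M^{dRB} = Ω_M^{And}`. We prove this prediction for all `M`, in the smallest case which was not accessible: the Lie
algebra of the Hodge group of `A` is a form of `so(5) = sp(4)`, or a sum of such algebras, acting by spin representations.

In this case the theorem of Wüstholz is not sufficient. The Lie algebra `𝔥` of the group of de Rham-Betti classes acts
irreducibly on the spin representation, and in all other ranks `r ≥ 3` this implies that `𝔥` is everything (theorem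
KugaSatake of the library of earlier results, which excludes `r = 5`); but `so(5) = sp(4)` contains the principal
subalgebra `sl(2)`, which acts irreducibly on `ℂ^4 = Sym^3 ℂ^2`. No known result excludes it, not even for a single abelian
surface with `End(A) = ℤ`. We exclude it by means of a further structure, **complex conjugation**.

**Conjugation** (`IsConjugation`). Let `F` be an automorphism of `H_1(A, ℚ)` such that the conjugates of the periods of
`γ` are the periods of `F γ` up to a matrix with algebraic entries. Such an `F` is given by each isogeny `φ` from `A` to its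
complex conjugate `Ā` (in particular, by complex conjugation if `A` is defined over a real number field), and
`F² = φ̄ φ ∈ End(A) ⊗ ℚ`. Then `F` normalises the group of the de Rham-Betti classes, since the complex conjugate of a
de Rham-Betti class on a power of `A` is one on a power of `Ā`.

**Hypothesis** (`ReflectionType`). There are endomorphisms `E i` of `H_1(A, ℂ)` with `(E i)² = 1`, `E i E j = - E j E i`, each of
which has one of `k` colours, and each colour is used at least five times (the case of *five* is the new one). The Lie
algebra `𝔤 ⊗ ℂ` of the Hodge group is contained in the span of the `E i E j`, `i ≠ j` of the same colour (the sum of the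
orthogonal Lie algebras of the spaces `T_σ` spanned by the `E i` of colour `σ`), and the associative algebra generated by
`𝔤 ⊗ ℂ` contains these `E i E j` (that is, there are no endomorphisms of `A` besides those which commute with them). And there
is a conjugation `F` which acts on each `T_σ` by a reflection up to sign: conjugation with `F` changes the sign of `E i E j`
if `i` or `j` is the distinguished index `o σ`, and fixes the other `E i E j`. (That `𝔤 ⊗ ℂ` is the whole sum is part of the proof.)

**Theorem.** Let `A` be such an abelian variety. For all motives `M` in the tensor category generated by `h^1(A)` and the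
Tate motives, and all algebraic groups `G` over `ℚ` with a torsor over `ℚ̄` which contains the periods of `M`, the group
`G` contains the Mumford-Tate group of `M`. The group `G` is not assumed to be connected, reductive, or related to Hodge
classes. (Equivalently: all de Rham-Betti classes in the tensor constructions of `M` are Hodge classes.)

## Examples (explanations, not part of the statement)

* *Abelian surfaces `A` with `End(A) = ℤ`* which are isogenous to their complex conjugate by `φ` with `φ̄ φ = - n`, `n > 0`.
  Here `H_1(A, ℂ)` has dimension four, `F² = - n`, and `ω(F x, F y) = - n ω(x, y)` for the polarization `ω`. So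
  `E 0 = F / √(-n)` has two eigenspaces of dimension two which are orthogonal for `ω`; it belongs to the space `T` of the
  endomorphisms of trace zero which are self-adjoint for `ω`, of dimension five, with the quadratic form `x² = q(x)`, whose
  orthogonal bases generate `End(H_1(A, ℂ))` as a Clifford algebra, and `𝔤 ⊗ ℂ ⊆ sp(4) = so(T)`. Such surfaces are the
  Jacobians of the curves of genus two of Shimura which have a real field of moduli and are not definable over `ℝ`,
  `y² = - ā₀ x⁶ + ā₁ x⁵ - ā₂ x⁴ + a₃ x³ + a₂ x² + a₁ x + a₀` with `a₃` real: the map `(x, y) ↦ (- 1 / x, i y / x³)` to the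
  conjugate curve has `φ̄ φ = - 1` on the Jacobian. All Hodge classes on the powers of such surfaces are products of divisor
  classes; so these are surfaces `A` with `End(A) = ℤ` for which all de Rham-Betti classes on all `A^n` are algebraic.
  (If `φ̄ φ > 0`, for example for the abelian surfaces over real fields, the conjugation acts on `T` with signature `(2, 3)`
  and normalises a principal `sl(2)`.)
* *K3 surfaces* (and hyperkähler varieties) `X` over real number fields whose transcendental lattice `T` has rank five
  over its field `F_0` of endomorphisms, which is assumed to be totally real, for example Picard number `17` and `F_0 = ℚ`, such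
  that complex conjugation acts on `T` with an eigenspace of dimension one over `F_0`. Here `A` is the Kuga-Satake variety,
  which is generated by `T`, and `M` may be `h^2(X)` and all motives of powers of `X`. For all ranks different from five
  this is known (KugaSatake). The Kummer surfaces of the abelian surfaces in the first example are of this type.

Nothing is assumed about periods: `AbVar` is the description of an abelian variety over `ℚ̄` by theta functions (see
`Pool/Agent/Y102/AVDefs.lean`, where it is explained why every abelian variety has it), and the transcendence theorems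
which are used, the theorem of Schneider and Lang and the transcendence of `π`, are proved in the library.

## Motives

As `h^1(A)` is dual to `h^1(A)(1)`, the motive `M` is a direct factor of a sum of motives `h^1(A) ^ {⊗ r i} (w i)`. Its
Betti realization is a space of families of multilinear forms with rational values, in `r i` variables in `H_1(A, ℚ)`, with
a basis `B`. It is the image of a motivated projector, and the realizations of motivated classes are Hodge classes and
de Rham-Betti classes; so it is stable under the Lie algebra `𝔤` (`InLie`), and under the weights. The de Rham realization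
has a basis which consists of combinations of products of elements of `H^1_dR(A / ℚ̄)` with algebraic coefficients. The
matrix `P` of the periods expresses it in terms of the basis `(2 π i) ^ (w i) B` of the Betti realization (`IsMotive`).

## Proof (`Pool/Agent/H945/Rf1`-`Rf6`)

Let `𝔮` be the Lie algebra of the elements of `𝔤` whose action on `M` is in the Lie algebra of `G` up to a multiple of the
weight. It contains the components `X(D, λ)` of the logarithmic derivatives `D(P_A) P_A⁻¹` of the period matrix of `A` for the
derivations `D` of `ℂ` over `ℚ̄` (theorems of the library). We have `F⁻¹ X(D, λ) F = X(D̄, λ̄)` (`X0_conj`), where `D̄`, `λ̄` are the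
conjugates. So `𝔮' = 𝔮 ∩ F 𝔮 F⁻¹` contains all `X(D, λ)`, too; it is stable under conjugation with `F`, as `F²` is
central, and by the theorem of Schneider and Lang it acts semisimply with the same commutant as `𝔤`.

(Lie algebras, `refl_main`) Let `𝔥` be a Lie subalgebra of `so(T)`, `dim T ≥ 3`, which generates the even Clifford algebra and
is stable under conjugation with a unit vector `e ∈ T`. Then `𝔥 = so(T)`: let `W` be the space of the `w ⟂ e` with `e w ∈ 𝔥`, and
`U` the orthogonal space of `W` in `e^⟂`; both are stable under the part of `𝔥` which commutes with `e`, and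
`U` is `𝔥`-stable. The vectors of the radical `W ∩ U` anticommute and have square zero, so that they have a common kernel in
the spin representation; it is stable under `𝔥` and hence under the even Clifford algebra, and this implies that the radical is
zero. Hence `U` is nondegenerate, and the product `ω` of an orthonormal basis of `U` commutes with `𝔥` (`vol_comm`). If
`U ≠ 0`, then `ω` does not commute with the even Clifford algebra, a contradiction. So `W = e^⟂` and `𝔥 = so(T)`.

For several colours we use the lemmas of Goursat and Ribet as in the theorem KugaSatake. The step from `𝔮 = 𝔤` to the group is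
as in the theorem MiddleExteriorMotives of the library.
-/

open Module Matrix Pool.Agent.Y102 Pool.Agent.W516.DR Pool.Agent.H204R3.GP

noncomputable section

namespace Pool.Agent.Results.MP_f11a48_ag.ReflectionConjugation

variable {g : ℕ} (A : AbVar g)

/-! ### The Lie algebra -/

/-- The multilinear forms in `2m` variables in the rational homology. -/
abbrev Form (m : ℕ) : Type := MultilinearMap ℚ (fun _ : Fin m × Fin 2 => A.H1) ℚ

/-- `φ` is a de Rham-Betti class in `H^1(A) ^ {⊗ 2m} (m)`. -/
def IsDRB {m : ℕ} (φ : Form A m) : Prop :=
  IsDeRhamBettiForm QBar A.dR (2 * Real.pi * Complex.I) m φ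

/-- `φ` is a Hodge class in `H^1(A) ^ {⊗ 2m} (m)`. -/
def IsHodge {m : ℕ} (φ : Form A m) : Prop := IsHodgeTensor (A.per : A.H1 →+ (Fin g → ℂ)) φ

/-- The endomorphism `X` annihilates the form `φ` (as a derivation). -/
def Annihilates {m : ℕ} (X : Module.End ℚ A.H1) (φ : Form A m) : Prop :=
  ∀ v, ∑ k, φ (Function.update v k (X (v k))) = 0

/-- `X` is in the Lie algebra `𝔤`: it annihilates all classes that are Hodge classes and
de Rham-Betti classes. -/
def InLie (X : Module.End ℚ A.H1) : Prop :=
  ∀ (m : ℕ) (φ : Form A m), IsHodge A φ → IsDRB A φ → Annihilates A X φ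

/-- The algebra of the endomorphisms of `H_1(A, ℂ)`, as matrices for the basis of the lattice. -/
abbrev EndC (_ : AbVar g) : Type := Matrix (Fin (2 * g)) (Fin (2 * g)) ℂ

/-- The matrix of the extension of an endomorphism of `H_1(A, ℚ)` to `H_1(A, ℂ)`. -/
def toC (X : Module.End ℚ A.H1) : EndC A := Matrix.of fun i j => (X (Pi.single j 1) i : ℂ)

/-- The complex Lie algebra `𝔤 ⊗ ℂ`, acting on `H_1(A, ℂ)`. -/
def lieC : Submodule ℂ (EndC A) := Submodule.span ℂ {Y | ∃ X, InLie A X ∧ Y = toC A X}

/-! ### Conjugation -/

/-- The automorphism `F` of the rational homology is a conjugation: the conjugates of the periods `∫_γ η` of the elements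
`η` of the basis `A.dR` of `H^1_dR(A / ℚ̄)` are linear combinations of the periods of `F γ`, with algebraic coefficients which
do not depend on `γ`. -/
def IsConjugation (F : A.H1 ≃ₗ[ℚ] A.H1) : Prop :=
  ∃ b : Fin g ⊕ Fin g → Fin g ⊕ Fin g → ℂ, (∀ i j, IsAlgebraic ℚ (b i j)) ∧
    ∀ i γ, (starRingEnd ℂ) (A.dR i γ) = ∑ j, b i j * A.dR j (F γ)

/-- The `E i` are anticommuting endomorphisms of `H_1(A, ℂ)` with square one; the colour of `E i` is `c i`, and each colour
is used at least five times. The Lie algebra `𝔤 ⊗ ℂ` is contained in the span of the products of two different `E i` of the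
same colour and generates an associative algebra which contains these products. The conjugation `F` acts on the space
spanned by the `E i` of colour `σ` as the reflection with respect to `E (o σ)`, up to sign. -/
structure ReflectionType (F : A.H1 ≃ₗ[ℚ] A.H1) {N k : ℕ} (E : Fin N → EndC A) (c : Fin N → Fin k)
    (o : Fin k → Fin N) : Prop where
  sq : ∀ i, E i * E i = 1
  anti : ∀ i j, i ≠ j → E i * E j = -(E j * E i)
  size : ∀ σ, 5 ≤ (Finset.univ.filter fun i => c i = σ).card
  le : lieC A ≤ Submodule.span ℂ {Y | ∃ i j, i ≠ j ∧ c i = c j ∧ Y = E i * E j}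
  generates : ∀ i j, c i = c j → E i * E j ∈ Algebra.adjoin ℂ (lieC A : Set (EndC A))
  conjugation : IsConjugation A F
  centre : ∀ σ, c (o σ) = σ
  reflection : ∀ i j, i ≠ j → c i = c j →
    toC A (F : A.H1 →ₗ[ℚ] A.H1) * (E i * E j) =
      if i = o (c i) ∨ j = o (c i) then -(E i * E j * toC A (F : A.H1 →ₗ[ℚ] A.H1))
      else E i * E j * toC A (F : A.H1 →ₗ[ℚ] A.H1)

/-! ### Motives -/

variable {s n : ℕ} (r : Fin s → ℕ) (w : Fin s → ℤ)

/-- The Betti realization of the sum of the motives `h^1(A) ^ {⊗ r i} (w i)`: families of multilinear
forms in `r i` variables in the rational homology. -/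
abbrev Tensors : Type := ∀ i : Fin s, MultilinearMap ℚ (fun _ : Fin (r i) => A.H1) ℚ

variable {A r}

/-- `M` is the matrix of the action of the endomorphism `X` of the rational homology of `A` (as a
derivation) on the space of tensors with the basis `B`. -/
def IsLieMatrix (B : Fin n → Tensors A r) (X : Module.End ℚ A.H1)
    (M : Matrix (Fin n) (Fin n) ℚ) : Prop :=
  ∀ a i v, ∑ k, B a i (Function.update v k (X (v k))) = ∑ b, M b a * B b i v

/-- The subspace with the basis `B` is the Betti realization of a direct factor `M` of the sum of the
motives `h^1(A) ^ {⊗ r i} (w i)`, and `P` is the matrix of the periods of `M` for the basis `B` and for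
some basis of the de Rham realization of `M` over `ℚ̄`. -/
structure IsMotive (B : Fin n → Tensors A r) (P : Matrix (Fin n) (Fin n) ℂ) : Prop where
  /-- `B` is a basis of a subspace -/
  basis : LinearIndependent ℚ B
  /-- the subspace is stable under `𝔤` -/
  lie : ∀ X, InLie A X → ∃ M : Matrix (Fin n) (Fin n) ℚ, IsLieMatrix B X M
  /-- the subspace is stable under the weights -/
  weight : ∃ M : Matrix (Fin n) (Fin n) ℚ, ∀ a i v,
    ((r i : ℚ) - 2 * w i) * B a i v = ∑ b, M b a * B b i v
  /-- the de Rham realization has a basis of elements with algebraic coefficients in terms of the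
  tensor products of the elements of the basis of `H^1_dR(A / ℚ̄)` -/
  deRham : ∃ c : Fin n → ∀ i : Fin s, (Fin (r i) → Fin g ⊕ Fin g) → ℂ,
    (∀ a i J, IsAlgebraic ℚ (c a i J)) ∧ ∀ a i (v : Fin (r i) → A.H1),
      ∑ J, c a i J * ∏ k, A.dR (J k) (v k) =
        (2 * Real.pi * Complex.I) ^ (w i) * ∑ b, P b a * (B b i v : ℂ)
  /-- the matrix of the periods is invertible -/
  det : P.det ≠ 0

/-! ### Algebraic groups, torsors and the Mumford-Tate group -/

/-- A subgroup of `GL_R(ℂ)` defined by polynomials with rational coefficients. -/
def IsAlgebraicSubgroup {R : Type} [Fintype R] [DecidableEq R] (G : Subgroup (GL R ℂ)) : Prop :=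
  ∃ I : Set (MvPolynomial (R × R) ℚ), ∀ x : GL R ℂ, x ∈ G ↔
    ∀ p ∈ I, MvPolynomial.aeval (fun b : R × R => (x : Matrix R R ℂ) b.1 b.2) p = 0

/-- The torsor `G · T⁻¹` of `G`: the matrices `F` such that `F T` is an element of `G`. It is
defined over `ℚ̄` if `T` is a matrix with algebraic entries. -/
def torsor (G : Subgroup (GL (Fin n) ℂ)) (T : Matrix (Fin n) (Fin n) ℂ) :
    Set (Matrix (Fin n) (Fin n) ℂ) :=
  {F | ∃ x ∈ G, (x : Matrix (Fin n) (Fin n) ℂ) = F * T}

variable (A) in
/-- The Hodge structure of `H^1(A)`: the complex number `z` acts on `H_1(A, ℝ) = ℂ ^ g` by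
multiplication, and on `H^1(A, ℝ)` by the transposed map, here in the basis of `H^1(A, ℚ)` which is
dual to the basis of the lattice. -/
def hodge (z : ℂ) : Matrix (Fin (2 * g)) (Fin (2 * g)) ℂ :=
  Matrix.of fun i j => ((A.lam.repr (z • A.lam i) j : ℝ) : ℂ)

/-- `R` is the matrix of the action of the complex number `z` on `M`, in the Hodge structure given by
those of `H^1(A)` and of the Tate motives (`z` acts on `ℚ(1)` by `(z z̄)⁻¹`). -/
def IsHodgeMatrix (B : Fin n → Tensors A r) (z : ℂ) (R : Matrix (Fin n) (Fin n) ℂ) : Prop :=
  ∀ a i (j : Fin (r i) → Fin (2 * g)),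
    ∑ j' : Fin (r i) → Fin (2 * g), (∏ k, hodge A z (j k) (j' k)) *
        (B a i (fun k => Pi.single (j' k) 1) : ℂ) =
      (z * (starRingEnd ℂ) z) ^ (w i) * ∑ b, R b a * (B b i (fun k => Pi.single (j k) 1) : ℂ)

/-- The Mumford-Tate group of `M`: the smallest algebraic group over `ℚ` which contains the image of
the Deligne torus. -/
def mumfordTate (B : Fin n → Tensors A r) : Subgroup (GL (Fin n) ℂ) :=
  sInf {G | IsAlgebraicSubgroup G ∧ ∀ z : ℂ, z ≠ 0 → ∃ x ∈ G,
    IsHodgeMatrix w B z (x : Matrix (Fin n) (Fin n) ℂ)}

theorem dat {A : AbVar g} {F : A.H1 ≃ₗ[ℚ] A.H1} {N k : ℕ} {E : Fin N → EndC A} {c : Fin N → Fin k}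
    {o : Fin k → Fin N} (h : ReflectionType A F E c o) :
    H945.Rf.Dat A F E c fun i => if i = o (c i) then -1 else 1 where
  sq := h.sq
  anti := h.anti
  size := fun i => h.size (c i)
  le := h.le
  gen := h.generates
  eps := fun i => by
    split_ifs <;> ring
  conj := fun i j hij hcij => by
    have h1 := h.reflection i j hij hcij
    have h2 : Pool.Agent.Y102.toC (F : A.H1 →ₗ[ℚ] A.H1) = toC A (F : A.H1 →ₗ[ℚ] A.H1) := rfl
    rw [h2, h1, ← hcij]
    by_cases hi : i = o (c i)
    · have hj : j ≠ o (c i) := fun h3 => hij (hi.trans h3.symm)
      rw [if_pos (Or.inl hi), if_pos hi, if_neg hj, mul_one, neg_one_smul]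
    · by_cases hj : j = o (c i)
      · rw [if_pos (Or.inr hj), if_neg hi, if_pos hj, one_mul, neg_one_smul]
      · rw [if_neg (by tauto), if_neg hi, if_neg hj, one_mul, one_smul]
  refl := fun s _ => by
    refine ⟨o s, h.centre s, fun i j hij hi hj => ?_⟩
    simp only [hi, hj]
    by_cases h1 : i = o s
    · have h3 : j ≠ o s := fun h3 => hij (h1.trans h3.symm)
      simp [h1, h3]
    · by_cases h2 : j = o s
      · simp [h1, h2]
      · simp [h1, h2]

/-- **Theorem.** Let `A` be an abelian variety of spin type, all colours of size at least five, with a conjugation which acts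
on the vectors of each colour by a reflection up to sign. Let `M` be a motive in the tensor category generated by `h^1(A)`
and the Tate motives, with the matrix `P` of periods, and let `G` be an algebraic group over `ℚ` with a torsor over `ℚ̄`
which contains `P`. Then `G` contains the Mumford-Tate group of `M`. -/
theorem result {g N k s n : ℕ} (A : AbVar g) (F : A.H1 ≃ₗ[ℚ] A.H1) (E : Fin N → EndC A) (c : Fin N → Fin k)
    (o : Fin k → Fin N) (hA : ReflectionType A F E c o) (r : Fin s → ℕ)
    (w : Fin s → ℤ) (B : Fin n → Tensors A r) (P : Matrix (Fin n) (Fin n) ℂ) (hM : IsMotive w B P)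
    (G : Subgroup (GL (Fin n) ℂ)) (hG : IsAlgebraicSubgroup G) (T : Matrix (Fin n) (Fin n) ℂ)
    (hT : ∀ i j, IsAlgebraic ℚ (T i j)) (hP : P ∈ torsor G T) : mumfordTate w B ≤ G := by
  obtain ⟨b, hb1, hb2⟩ := hA.conjugation
  have d := dat hA
  obtain ⟨hM', Wt, hW⟩ : N208.AM.Mot w B P ∧ ∃ Wt, N208.AM.WRel w B Wt := by
    have hwt : ∃ M, N208.AM.WRel w B M := by
      obtain ⟨M, h⟩ := hM.weight
      refine ⟨M, fun a i => MultilinearMap.ext fun v => ?_⟩
      rw [_root_.smul_apply, _root_.sum_apply, smul_eq_mul, h a i v]
      rfl
    refine ⟨⟨hM.basis, fun X hX => ?_, hwt, hM.det, hM.deRham⟩, hwt⟩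
    obtain ⟨M, h⟩ := hM.lie X hX
    refine ⟨M, fun a i => MultilinearMap.ext fun v => ?_⟩
    rw [N208.AM.dact_apply, _root_.sum_apply, h a i v]
    rfl
  have hb : ∀ j : Fin (2 * g), A.bas j = Pi.single j 1 := fun j => by
    unfold AbVar.bas
    rw [Pi.basisFun_apply]
  have hrel : ∀ z R, N208.AM.HRel w B z R → IsHodgeMatrix w B z R := by
    intro z R h a i j
    have h1 := h a i j
    simp only [hb] at h1
    exact h1
  -- the group
  have hdet : T.det ≠ 0 := by
    obtain ⟨x, -, hxT⟩ := hP
    intro h0
    have h1 : (x : Matrix (Fin n) (Fin n) ℂ).det = 0 := by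
      rw [hxT, Matrix.det_mul, h0, mul_zero]
    exact (Matrix.GeneralLinearGroup.det x).ne_zero h1
  obtain ⟨T', h1, h2⟩ := Pool.Agent.R917.alg_inv hT hdet
  obtain ⟨x, hx, hxT⟩ := hP
  have hH : N208.AM.PtM P _ := ⟨Pool.Agent.R917.algGrp_of hG, T, T', h1, h2, x, hx, hxT⟩
  obtain ⟨N0, hN, -⟩ := N208.AM.exists_J hM'
  refine sInf_le ⟨hG, fun z hz => ?_⟩
  obtain ⟨⟨x, hx, hx'⟩, h4⟩ := d.all_B hb1 hb2 hM' hW hH hN hz
  refine ⟨x, hx, ?_⟩
  rw [hx']
  exact hrel _ _ h4

end Pool.Agent.Results.MP_f11a48_ag.ReflectionConjugation
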