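import Pool.Graph.R_pool_sql_team_seeded_3dad9d7b.Results.MP_caab05_ag.UnboundedProducts
import Pool.Agent.H945.Blk3

/-!
# Absolute de Rham-Betti subvarieties relative to an arbitrary motive, on products of a number of fibres which is not bounded

Let `X → U` be a family of smooth projective varieties over a curve over `ℚ`, with a coordinate `x` at a rational point `0`
where `X` is smooth or degenerates with unipotent local monodromy. In rational bases of the canonical extension the period
matrix (rows: Betti, columns: de Rham) of a cohomology group of the fibres is `P(x) = Ω x^N H(x)` with a nilpotent integral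
matrix `N`, `Ω ∈ GL(ℂ)` and a matrix `H` of power series over `ℚ`, `H(0) = 1`, such that the entries of `H` and `H⁻¹` are
G-functions (`GFamily`, which makes no reference to geometry). `Gal(P)` is the differential Galois group of the Gauss-Manin
system over `ℂ(x, log x)`. Let `M_0` be any object over a number field with period matrix `C₀` and let
`c = C₀ ⊕ ⨁_j P(x_j)` be the period matrix of the sum of `M_0` and of the fibres `M_j` at the points `x_j`; the values of the
logarithms at the points, that is the paths, are arbitrary. (All these definitions are those of the theorem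
UnboundedProducts of the library of earlier results, which is used here.)

A de Rham-Betti class over `K` is an element `α` of a tensor space with coordinates in `K` on the de Rham side such that `c(α)`
has rational coordinates on the Betti side; the torsor `Ω^dRB` of the problem is defined by these classes. Much more generally
let `ρ` be an algebraic representation over `K` of the group `GL` in which `c` lies, for example any tensor construction, and let
`𝓩` be a finite set of **arbitrary closed subvarieties** over `ℂ` of the affine space of `ρ`, which is stable under `Aut(ℂ/K)`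
(acting on the de Rham coordinates) and such that the set of the images of the members of `𝓩` under the comparison isomorphism
`ρ(c)` is stable under `Aut(ℂ/K)`, too (acting on the Betti coordinates). We call such a set **absolute** over `K` (`IsAbsolute`), by
analogy with the absolute Hodge classes of Deligne. There is no bound for the degrees of the subvarieties or of the
representation, for the number of members or for their fields of definition on the two sides, only for the degree of the field
`K` over which the whole system is stable. The de Rham-Betti classes (`𝓩` consists of one point), the de Rham-Betti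
subobjects of all tensor constructions (one linear subspace), the classes up to a scalar, and the Galois-stable finite sets of classes or
subobjects with coefficients in number fields of any degree are special cases.

**Conclusion** (`AbsGood`) for points `x_j`, families `P_j` and a natural number `D`: for all paths, all number fields `K` of
degree at most `D`, all algebraic representations `ρ` over `K` of `GL` and all absolute `𝓩`:

1. The images of the members of `𝓩` are stable under `1 × ∏_j V_j` for all perfect subgroups `V_j` of `known_j` which are generated by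
   unipotent one-parameter groups. (`known_j`, the commutator group of the group generated by all unipotent one-parameter
   groups in `Gal(P_j)`, is for families of smooth projective varieties the connected component of the Zariski closure of the
   monodromy group, by a theorem of Deligne.) So with respect to the fibres `M_j` all the absolute subvarieties and subobjects of all
   constructions with `M_0` and the `M_j` are monodromy-invariant, hence of geometric origin as far as the `M_j` are concerned.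
2. Let `Gal(P_j)` contain, for all `j`, the group `special(B_j)` of the matrices of determinant `1` which respect a form
   `B_j`, where `B_j` is alternating and nondegenerate, or symmetric and nondegenerate of rank `≠ 2`, or zero. Then the images
   are stable under `1 × ∏_j special(B_j)`, and every vector `α`, with arbitrary complex coordinates, whose line `ℂ α` belongs to
   an absolute set has an image which is invariant under this group: all absolute classes of all constructions with `M_0` and the `M_j`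
   come, with respect to the `M_j`, from the polarisations and determinants.
3. Let moreover `M_0` be a sum of copies of `ℚ(-1)`, `C₀ = 2πi`, and `2 m_j = n_j w_j`. If `c` lies in the torsor of the
   isomorphisms `z ⊕ ⨁ X_j` with `X_j Q_j X_j^t = z^(w_j) B_j` and (unless `B_j` is alternating) `det X_j = δ_j z^(m_j)`, and this
   torsor is defined over `K` (this is the torsor of the motivated periods), then the images of the members of `𝓩` are stable under **all**
   `a ⊕ ⨁ g_j` with `g_j B_j g_j^t = a^(w_j) B_j` and `det g_j = a^(m_j)`: the whole group of the torsor.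

**Theorem.**

(A) (Windows around algebraic points.) Let the entries of `Ω` and `C₀` be given polynomials over `ℚ` in given constants `Θ`
and `q` further numbers `w`. There is `G₀` such that for all `G ≥ G₀`, `D`, `m`, `A` there is an exponent `E` such that for all
algebraic numbers `ξ` of degree at most `m` and height at most `|ξ|^A`, all `L` with `(L + 2)^E ≤ |ξ|` and all `w ∈ ℂ^q` there is a
set of at most `trdeg ℚ(2πi, Θ) + q + 1` exceptional numbers such that the conclusion holds for **all the finite sets** of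
fibres at the points `x_u = 1 / (ξ - G u)`, `1 ≤ u ≤ L`, `u` not exceptional; in particular for the product of all of
them, whose number may be the power `|ξ|^(1 / E)` of the size of `ξ`.

(B) (Almost all tuples.) Let `P_i`, `i ≤ s`, be families, `m_i ≥ 1`, `0 < η ≤ 1`, `D` natural. There are `c > 0` and `C` such that
for **all** `k`, all choices of `k` of these families (with repetitions and with arbitrary matrices `Ω_j`), all `C₀` of given
size, all `T ≥ 1` and all integers `a_j` in `[1, T^(1 - η)]` the conclusion holds for the points `x_j = a_j / β_j` for all but the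
proportion `C k² T^(-c)` of the `k`-tuples of algebraic integers `β_j` of degree at most `m_(f j)` and house at most `T`.
Moreover there are functions `D(T), κ(T) → ∞` and `δ(T) → 0` such that for `k ≤ κ(T)` the conclusion holds with `D(T)` for all but
the proportion `δ(T)` of the tuples.

Proof. (`Pool/Agent/H945/Abs*, Obj*, Blk*`) Let `𝓩` be absolute. The `x ∈ GL` such that `ρ(x)` maps the set `𝓩` onto the set of the images of its
members under `ρ(c)` form a set which is closed under `x y⁻¹ z`, contains `c`, is stable under `Aut(ℂ/K)` and closed, hence it is a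
`K`-subtorsor. By the theorem on `K`-subtorsors it is stable under the group, which therefore permutes the finite set of the images; the action of a
one-parameter group `exp(tA)` on a finite set of closed subvarieties is trivial, as the condition that `exp(tA)` maps one into another is polynomial in `t`.
For the lines in 2 the perfect group acts on them by a character, which is trivial. In 3 the stabiliser of all members is again the group of
a `K`-subtorsor: the smallest `K`-subtorsor `S` with `c ∈ S` is the whole torsor; the elements of `S` which induce on `𝓩` the same bijection to the images as `c`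
form a closed subset `S'` with finite index stabiliser, so `S'` is stable under the special group by the above and its multipliers `z` are a
union of cosets of a subgroup of `ℂ^×` of finite index, thus all of `ℂ^×`.
-/

set_option autoImplicit false

open Filter
open scoped commutatorElement Matrix

namespace Pool.Agent.Results.MP_f11a48_ag.RelativeAbsoluteSubvarieties

open Pool.Agent.Results.MP_caab05_ag.UnboundedProducts (GFamily perMat Gal unipotents known special Symplectic Classical
  IsSubtorsor House Height valueAt total torsorOf Good)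
open Pool.Agent.H945.Obj (IsRep IsAbsolute im)

variable {k r : ℕ} {n : Fin k → ℕ}

/-- The conclusion for the fibres at the points `x_i = 1 / z_i`. -/
def AbsGood (D : ℕ) (C₀ : Matrix (Fin r) (Fin r) ℂ) (N : ∀ i, Matrix (Fin (n i)) (Fin (n i)) ℤ)
    (H : ∀ i, Matrix (Fin (n i)) (Fin (n i)) (PowerSeries ℚ)) (Ω : ∀ i, Matrix (Fin (n i)) (Fin (n i)) ℂ)
    (z : Fin k → ℂ) : Prop :=
  ∀ ℓ : Fin k → ℂ, (∀ i, Complex.exp (ℓ i) = z i) →
  ∀ K : Subfield ℂ, FiniteDimensional ℚ K → Module.finrank ℚ K ≤ D →
  ∀ c : Matrix (Fin r ⊕ Σ i, Fin (n i)) (Fin r ⊕ Σ i, Fin (n i)) ℂ, IsUnit c →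
    c = total C₀ (fun i => perMat (N i) (H i) (Ω i) (z i) (ℓ i)) →
  ∀ (ι : Type) [Fintype ι] [DecidableEq ι]
    (ρ : Matrix (Fin r ⊕ Σ i, Fin (n i)) (Fin r ⊕ Σ i, Fin (n i)) ℂ → Matrix ι ι ℂ) (𝓩 : Set (Set (ι → ℂ))),
    IsRep K ρ → IsAbsolute K (ρ c) 𝓩 →
  -- 1: stability under perfect groups
  (∀ V : ∀ i, Subgroup (Matrix.GeneralLinearGroup (Fin (n i)) ℂ), (∀ i, V i ≤ known (Gal (N i) (H i) (Ω i))) →
    (∀ i, ⁅V i, V i⁆ = V i) → ∀ g : ∀ i, Matrix.GeneralLinearGroup (Fin (n i)) ℂ, (∀ i, g i ∈ unipotents (V i)) →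
    ∀ Z ∈ 𝓩, im (ρ (total 1 fun i => (g i : Matrix (Fin (n i)) (Fin (n i)) ℂ))) (im (ρ c) Z) = im (ρ c) Z) ∧
  -- 2: big monodromy, relative case, subvarieties and classes
  (∀ B : ∀ i, Matrix (Fin (n i)) (Fin (n i)) ℂ, (∀ i, Classical (B i)) →
    (∀ i, special (B i) ≤ Gal (N i) (H i) (Ω i)) →
    ∀ g : ∀ i, Matrix.GeneralLinearGroup (Fin (n i)) ℂ, (∀ i, g i ∈ special (B i)) →
    (∀ Z ∈ 𝓩, im (ρ (total 1 fun i => (g i : Matrix (Fin (n i)) (Fin (n i)) ℂ))) (im (ρ c) Z) = im (ρ c) Z) ∧
    ∀ α : ι → ℂ, {v | ∃ a : ℂ, v = a • α} ∈ 𝓩 →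
      ρ (total 1 fun i => (g i : Matrix (Fin (n i)) (Fin (n i)) ℂ)) *ᵥ (ρ c *ᵥ α) = ρ c *ᵥ α) ∧
  -- 3: big monodromy, absolute case
  (0 < r → C₀ = (2 * Real.pi * Complex.I : ℂ) • 1 →
    ∀ B : ∀ i, Matrix (Fin (n i)) (Fin (n i)) ℂ, (∀ i, Classical (B i)) →
    (∀ i, special (B i) ≤ Gal (N i) (H i) (Ω i)) →
    ∀ (Q : ∀ i, Matrix (Fin (n i)) (Fin (n i)) ℂ) (w m : Fin k → ℤ) (δ : Fin k → ℂ), (∀ i, 2 * m i = n i * w i) →
      IsSubtorsor K (torsorOf r B Q w m δ) → c ∈ torsorOf r B Q w m δ →
      ∀ (a : ℂ) (g : ∀ i, Matrix (Fin (n i)) (Fin (n i)) ℂ), a ≠ 0 →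
      (∀ i, g i * B i * (g i)ᵀ = a ^ (w i) • B i ∧ (Symplectic (B i) ∨ (g i).det = a ^ (m i))) →
      ∀ Z ∈ 𝓩, im (ρ (total (a • 1) g)) (im (ρ c) Z) = im (ρ c) Z)

theorem absGood_of {D : ℕ} {C₀ : Matrix (Fin r) (Fin r) ℂ} {N : ∀ i, Matrix (Fin (n i)) (Fin (n i)) ℤ}
    {H : ∀ i, Matrix (Fin (n i)) (Fin (n i)) (PowerSeries ℚ)} {Ω : ∀ i, Matrix (Fin (n i)) (Fin (n i)) ℂ} {z : Fin k → ℂ}
    (hG : Good D C₀ N H Ω z) : AbsGood D C₀ N H Ω z := by
  intro ℓ hℓ K hKf hKD c hc hcd ι _ _ ρ 𝓩 hρ h
  have hst : ∀ V : ∀ i, Subgroup (Matrix.GeneralLinearGroup (Fin (n i)) ℂ),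
      (∀ i, V i ≤ known (Gal (N i) (H i) (Ω i))) → (∀ i, ⁅V i, V i⁆ = V i) →
      ∀ T, Pool.Agent.Y123.ST.SubT K T → c ∈ T → ∀ g : ∀ i, Matrix.GeneralLinearGroup (Fin (n i)) ℂ,
      (∀ i, g i ∈ V i) → total 1 (fun i => (g i : Matrix (Fin (n i)) (Fin (n i)) ℂ)) * c ∈ T := by
    intro V hV hVp T hT hcT g hg
    exact (hG ℓ hℓ K hKf hKD T hT (hcd ▸ hcT)).1 V hV hVp g hg c hcT
  have hsp : ∀ B : ∀ i, Matrix (Fin (n i)) (Fin (n i)) ℂ, (∀ i, Classical (B i)) →
      (∀ i, special (B i) ≤ Gal (N i) (H i) (Ω i)) →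
      ∀ T, Pool.Agent.Y123.ST.SubT K T → c ∈ T → ∀ g : ∀ i, Matrix.GeneralLinearGroup (Fin (n i)) ℂ,
      (∀ i, g i ∈ Pool.Agent.Y123.GN.GB (B i)) →
      Pool.Agent.Y123.GN.EG 1 (fun i => (g i : Matrix (Fin (n i)) (Fin (n i)) ℂ)) * c ∈ T := by
    intro B hB hBG
    refine hst (fun i => Pool.Agent.Y123.GN.GB (B i)) (fun i => Pool.Agent.Y123.GN.mono_comm (hBG i)
      (Pool.Agent.Y123.GN.cl_perf (hB i))) (fun i => le_antisymm (Subgroup.commutator_le.2 fun a ha b hb =>
        (Pool.Agent.Y123.GN.GB (B i)).mul_mem ((Pool.Agent.Y123.GN.GB (B i)).mul_mem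
          ((Pool.Agent.Y123.GN.GB (B i)).mul_mem ha hb) ((Pool.Agent.Y123.GN.GB (B i)).inv_mem ha))
          ((Pool.Agent.Y123.GN.GB (B i)).inv_mem hb)) ?_)
    exact (Pool.Agent.Y123.GN.cl_perf (hB i)).trans (Subgroup.commutator_mono (Pool.Agent.Y123.GN.Ug_le _)
      (Pool.Agent.Y123.GN.Ug_le _))
  refine ⟨?_, ?_, ?_⟩
  · intro V hV hVp g hg Z hZ
    exact Pool.Agent.H945.Blk.stab_blocks hρ hc h (V := V) (hst V hV hVp) hZ hg
  · intro B hB hBG g hg
    refine ⟨fun Z hZ => ?_, fun α hα => ?_⟩
    · refine Pool.Agent.H945.Blk.stab_blocks hρ hc h (V := fun i => Pool.Agent.Y123.GN.GB (B i)) (hsp B hB hBG) hZ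
        fun i => ?_
      exact (Subgroup.commutator_le.2 fun a ha b hb => (Pool.Agent.Y123.GN.Ug _).mul_mem
        ((Pool.Agent.Y123.GN.Ug _).mul_mem ((Pool.Agent.Y123.GN.Ug _).mul_mem ha hb)
        ((Pool.Agent.Y123.GN.Ug _).inv_mem ha)) ((Pool.Agent.Y123.GN.Ug _).inv_mem hb))
        (Pool.Agent.Y123.GN.cl_perf (hB i) (hg i))
    · exact Pool.Agent.H945.Blk.line_blocks hρ hc h hB (hsp B hB hBG) hα hg
  · intro hr hC₀ B hB hBG Q w m δ hm hS hcS a g ha hg Z hZ
    refine Pool.Agent.H945.Blk.stab_full hρ hc h hB (hsp B hB hBG) hm hS hcS ?_ hZ ha hg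
    intro T hT hcT hTS
    exact (hG ℓ hℓ K hKf hKD T hT (hcd ▸ hcT)).2.2 hr hC₀ B hB hBG Q w m δ hTS

/-- **The theorem.** -/
theorem result :
    -- (A) windows around algebraic points
    (∀ (n : ℕ) (N : Matrix (Fin n) (Fin n) ℤ) (H : Matrix (Fin n) (Fin n) (PowerSeries ℚ)), GFamily N H →
      ∃ G₀ : ℕ, 1 ≤ G₀ ∧ ∀ G : ℕ, G₀ ≤ G → ∀ (p : ℕ) (Θ : Fin p → ℂ) (q r m D A : ℕ)
        (o : Matrix (Fin n) (Fin n) (MvPolynomial (Fin p ⊕ Fin q) ℚ))
        (c : Matrix (Fin r) (Fin r) (MvPolynomial (Fin p ⊕ Fin q) ℚ)), ∃ E : ℕ, ∀ (L : ℕ) (ξ : ℂ),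
        ((L : ℝ) + 2) ^ E ≤ ‖ξ‖ → Height m A ξ → ∀ w : Fin q → ℂ, ∃ S : Finset ℕ,
        (S.card : Cardinal) ≤
          Algebra.trdeg ℚ (IntermediateField.adjoin ℚ (insert (2 * Real.pi * Complex.I) (Set.range Θ))) + q + 1 ∧
        ∀ (k : ℕ) (u : Fin k → ℕ), Function.Injective u → (∀ j, 1 ≤ u j ∧ u j ≤ L ∧ u j ∉ S) →
          AbsGood D (valueAt c Θ w) (fun _ => N) (fun _ => H) (fun _ => valueAt o Θ w)
            (fun j => ξ - ((G * u j : ℕ) : ℂ))) ∧
    -- (B) almost all tuples of any length
    (∀ (s : ℕ) (n : Fin s → ℕ) (N : ∀ i, Matrix (Fin (n i)) (Fin (n i)) ℤ)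
      (H : ∀ i, Matrix (Fin (n i)) (Fin (n i)) (PowerSeries ℚ)), (∀ i, GFamily (N i) (H i)) →
      ∀ (r : ℕ) (m : Fin s → ℕ), (∀ i, 1 ≤ m i) → ∀ η : ℝ, 0 < η → η ≤ 1 →
      (∀ D : ℕ, ∃ c C : ℝ, 0 < c ∧ 0 ≤ C ∧ ∀ (k : ℕ) (f : Fin k → Fin s)
        (Ω : ∀ j, Matrix (Fin (n (f j))) (Fin (n (f j))) ℂ) (C₀ : Matrix (Fin r) (Fin r) ℂ) (T : ℕ), 1 ≤ T →
        ∀ a : Fin k → ℕ, (∀ j, 1 ≤ a j ∧ (a j : ℝ) ≤ (T : ℝ) ^ (1 - η)) →
        (({β : Fin k → ℂ | (∀ j, House (m (f j)) T (β j)) ∧
          ¬ AbsGood D C₀ (fun j => N (f j)) (fun j => H (f j)) Ω fun j => β j / a j}.ncard : ℕ) : ℝ) ≤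
          C * (k : ℝ) ^ 2 * (T : ℝ) ^ (-c) * (({β : Fin k → ℂ | ∀ j, House (m (f j)) T (β j)}.ncard : ℕ) : ℝ)) ∧
      (∃ (D κ : ℕ → ℕ) (δ : ℕ → ℝ), Tendsto D atTop atTop ∧ Tendsto κ atTop atTop ∧ Tendsto δ atTop (nhds 0) ∧
        ∀ (T : ℕ), 1 ≤ T → ∀ (k : ℕ), k ≤ κ T → ∀ (f : Fin k → Fin s)
        (Ω : ∀ j, Matrix (Fin (n (f j))) (Fin (n (f j))) ℂ) (C₀ : Matrix (Fin r) (Fin r) ℂ)
        (a : Fin k → ℕ), (∀ j, 1 ≤ a j ∧ (a j : ℝ) ≤ (T : ℝ) ^ (1 - η)) →
        (({β : Fin k → ℂ | (∀ j, House (m (f j)) T (β j)) ∧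
          ¬ AbsGood (D T) C₀ (fun j => N (f j)) (fun j => H (f j)) Ω fun j => β j / a j}.ncard : ℕ) : ℝ) ≤
          δ T * (({β : Fin k → ℂ | ∀ j, House (m (f j)) T (β j)}.ncard : ℕ) : ℝ))) := by
  classical
  obtain ⟨hA, hB⟩ := Pool.Agent.Results.MP_caab05_ag.UnboundedProducts.result
  have hfin : ∀ (s k : ℕ) (m : Fin s → ℕ) (f : Fin k → Fin s) (T : ℕ),
      {β : Fin k → ℂ | ∀ j, House (m (f j)) T (β j)}.Finite := by
    intro s k m f T
    have hf : ∀ j, {ξ : ℂ | House (m (f j)) T ξ}.Finite := fun j => Pool.Agent.Y916.Sl.sint_fin (m (f j)) T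
    refine (Set.Finite.pi' hf).subset fun β hβ => ?_
    exact hβ
  refine ⟨?_, ?_⟩
  · intro n N H hG
    obtain ⟨G₀, hG₀, h1⟩ := hA n N H hG
    refine ⟨G₀, hG₀, fun G hGG p Θ q r m D A o c => ?_⟩
    obtain ⟨E, hE⟩ := h1 G hGG p Θ q r m D A o c
    refine ⟨E, fun L ξ hξ hHt w => ?_⟩
    obtain ⟨S, hS, h2⟩ := hE L ξ hξ hHt w
    exact ⟨S, hS, fun k u hu hub => absGood_of (h2 k u hu hub)⟩
  · intro s n N H hG r m hm η hη hη1
    obtain ⟨h1, D, κ, δ, hD, hκ, hδ, h2⟩ := hB s n N H hG r m hm η hη hη1
    refine ⟨fun D => ?_, D, κ, δ, hD, hκ, hδ, ?_⟩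
    · obtain ⟨c, C, hc, hC, h3⟩ := h1 D
      refine ⟨c, C, hc, hC, fun k f Ω C₀ T hT a ha => le_trans ?_ (h3 k f Ω C₀ T hT a ha)⟩
      have hsub : {β : Fin k → ℂ | (∀ j, House (m (f j)) T (β j)) ∧
          ¬ AbsGood D C₀ (fun j => N (f j)) (fun j => H (f j)) Ω fun j => β j / a j} ⊆
          {β : Fin k → ℂ | (∀ j, House (m (f j)) T (β j)) ∧
          ¬ Good D C₀ (fun j => N (f j)) (fun j => H (f j)) Ω fun j => β j / a j} :=
        fun β hβ => ⟨hβ.1, fun h4 => hβ.2 (absGood_of h4)⟩
      exact_mod_cast Set.ncard_le_ncard hsub ((hfin s k m f T).subset fun β hβ => hβ.1)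
    · intro T hT k hk f Ω C₀ a ha
      refine le_trans ?_ (h2 T hT k hk f Ω C₀ a ha)
      have hsub : {β : Fin k → ℂ | (∀ j, House (m (f j)) T (β j)) ∧
          ¬ AbsGood (D T) C₀ (fun j => N (f j)) (fun j => H (f j)) Ω fun j => β j / a j} ⊆
          {β : Fin k → ℂ | (∀ j, House (m (f j)) T (β j)) ∧
          ¬ Good (D T) C₀ (fun j => N (f j)) (fun j => H (f j)) Ω fun j => β j / a j} :=
        fun β hβ => ⟨hβ.1, fun h4 => hβ.2 (absGood_of h4)⟩
      exact_mod_cast Set.ncard_le_ncard hsub ((hfin s k m f T).subset fun β hβ => hβ.1)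

end Pool.Agent.Results.MP_f11a48_ag.RelativeAbsoluteSubvarieties
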