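import Pool.Agent.H936.V.Pull

/-!
# Special fibres repel each other: de Rham-Betti classes on all fibres near special abelian varieties, over bases of any dimension

Let `A_0` be an abelian variety of dimension `g ≥ 2` with a polarisation `H` and with the period matrix `C`. It is **special**
(over a number field `K` of degree at most `D`) if it has an endomorphism over `K` which is not in `ℤ`, or, more generally,
if a `K`-subtorsor of the torsor of all isomorphisms `H^1_dR → H^1_B` contains `C`, has a group which is defined over `ℚ` and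
is not stable under `Sp(H)`. By `Ω^dRB ⊆ Ω^And` and André's theorem this is the case if the Mumford-Tate group is smaller
than `GSp`, and it is also the case if `A_0` is generic and the conjecture `Ω^dRB = Ω^And` is false for `A_0`.

Let `X_j → B_j`, `j = 1, …, N`, be families of polarised abelian varieties over `ℚ`, `B_j` open in the affine space of **any
dimension** `m`, which have `A_0` as the fibre at the origin; their period matrices are `P_j(x) = C Z_j(x)`, where `Z_j` is a
matrix of G-functions in `m` variables. For `x_j = a_j / b_j`, `a_j ∈ ℤ^m`, `b_j ∈ ℕ`, let `A_j` be the fibre of the family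
`X_j` at `x_j`, and let `C₀` be the period matrix of another object `M_0` and

  `c = C₀ ⊕ P_1(a_1 / b_1) ⊕ … ⊕ P_N(a_N / b_N)`,

the period matrix of `M = M_0 ⊕ ⨁ h^1(A_j)`. The torsor `Ω^dRB_M` of the problem is a subtorsor over `K` with `c` as a point,
whose group (on the Betti side) is defined over `ℚ`.

**Theorem.** For all `g ≥ 2`, `m`, `N`, `M`, `q`, `D`, `r`, `s`, `e` there is `E` such that the following holds for all real
`B ≥ 1` and all `h, w, b₀` with `b₀ ≥ (2 B (h + w + 2))^E`, **all** rational symplectic forms `H` and **all** `C` (which are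
polarised over fields of degree at most `D`).

1. If `C` is the period matrix of a special abelian variety `A_0`, then for **all** families `X_j` of degree at most `q` and size
   at most `B` with big monodromy on the lines `ℚ a_j`, **all** numerators with `|a_j| ≤ h`, **all** denominators `b_j` in
   `[b₀, b₀ + w]` which are equal or have distances larger than `2^(m+1) B (h + 2)`, **all** `C₀` of size `r` which are linked
   to `C` (see below), **all** number fields `K` with `[K : ℚ] ≤ D` and **all** `K`-subtorsors `S` with `c ∈ S` whose group is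
   defined over `ℚ`:
   * `S` is stable under `1 × Sp × … × Sp`;
   * if `C₀ = 2 π i` (`M_0 = ℚ(-1)^r`) then `S` is equal to the torsor `T_pol` of all isomorphisms which respect the
     polarisations as soon as it is contained in it. So `Ω^dRB_M = Ω^And_M = T_pol`: the second equality of the conjecture;
   * **no `A_j` is special**, and there are no homomorphisms between `A_i` and `A_j`, `i ≠ j` (over fields of degree `≤ D`).
2. For an **arbitrary** central fibre the same is true outside of a set `F` of **at most `M` exceptional denominators** for all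
   tuples with at most `M` different denominators which have distances larger than `2^(m+1) B (h + 2)` from the elements of
   `F`. The set `F` depends on `C`, `H`, `β` and on the window, but not on the families, the points, `M_0`, `K` and `S`; in particular
   for all fibres and for all powers and products of fibres with the same denominator there is at most one exceptional
   denominator in each window.

So for every family and every pair of points `s`, `s' = s + a / b` of the base the fibres at `s` and `s'` cannot both be special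
if `b ≥ (2 B (|a| + 2))^E`, where `B` is the size of the family in coordinates with the origin `s`: **special points repel
each other**, by a power of `b` more than in Liouville's inequality `|s - s'| ≥ 1 / b`; and as the theorem is uniform in the
central fibres and in the families, it can be applied with all points `s` as the centre, with a loss of a power of the height of
`s` only. Nothing is assumed about the transcendence of the periods of `A_0`.

Linked: either `C₀` and `C` together are, up to a common factor, algebraic over a field generated by less than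
`g (2 g + 1) = dim Sp` numbers `β`; or `C₀` is algebraic over the field generated by `2 π i`, the periods of `A_0` and
`2 g - 3` other numbers `β`, with equations of degree at most `e` (for given numbers such an `e` exists).

The theorem contains the theorem `NearSpecialFibres` of an earlier state of this repository (points `1 / t` of one
one-parameter family, with constants which depend on the family and on the central fibre). In the other known theorems on
**all** fibres with large denominators (`AllLargeParameters`, `AllFibresFewCentralPeriods`, `FewExceptionalDenominators`) there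
are at most `2 g - 2` central periods, or exceptional denominators, the number of which depends on the number of the
central periods (at most `M ⌊s / (2 g - 1)⌋`).

**Proof** (`Pool/Agent/H936/V`, `Pool/Agent/H936/G`, `Pool/Agent/H885`). By the uniform theorem on the linear independence of
values of G-functions at several points (`H885`) there are in the ultraproduct `ℂ^*` of a sequence of counterexamples, for
each `X` in `𝔰𝔭` and each `j`, derivations `δ` over `ℚ^*` with `δ(Z_j) Z_j⁻¹ = C⁻¹ X C`, `δ(Z_i) = 0` for the other points.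
The limit `L` of the Lie algebras of the groups of `S` is normalised by `(δ(C₀) C₀⁻¹, F + X e_j)`, `F = δ(C) C⁻¹`. We
have no control over `F`, but it normalises the limit `𝔩_0` of the symplectic parts of the Lie algebras of the special torsors
through `C`, because their degrees are bounded (`normL`). So with `𝔩` the `j`-th projection of `L`,
`𝔰𝔭 = 𝔫(𝔩) + 𝔫(𝔩_0)`. By the theorem of Schneider and Lang in the form of Bost (`Y102`) and by the positivity of the
polarisation the trace forms on `𝔩` and `𝔩_0` are nondegenerate, and they are not zero; here we use that the groups are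
defined over `ℚ`. By the factorisation theorem `thmE` (`G/Fact`) `𝔩 = 𝔰𝔭`. As `𝔫(𝔩_0)` has codimension at least `2 g - 1`, the
periods of `A_0` have few independent derivatives, some `X ≠ 0` occurs with `F = 0`, and as `L` is closed under commutators it
contains `𝔰𝔭 e_j`. For part 2 two separated exceptional tuples are compared: by `thmE` one of the two has full
projections, and then `F` is eliminated as before (`V/Core`).

Nothing is assumed about periods: `AbVar` is the description of an abelian variety over `ℚ̄` by theta functions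
(`Pool/Agent/Y102/AVDefs.lean` explains why every abelian variety has it).
-/

set_option autoImplicit false

open PowerSeries Filter
open scoped Matrix

namespace Pool.Agent.Results.MP_f11a48_ag.SpecialFibresRepel

open Pool.Agent.Y102 (AbVar riemannForm)

/-! ### Families -/

section several
variable {n m N : ℕ}

/-- an integer polynomial in `m` variables as a power series with rational coefficients -/
noncomputable def toQ (P : MvPolynomial (Fin m) ℤ) : MvPowerSeries (Fin m) ℚ :=
  ((P.map (Int.castRingHom ℚ) : MvPolynomial (Fin m) ℚ) : MvPowerSeries (Fin m) ℚ)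

/-- the partial derivative `∂f / ∂x_i` -/
noncomputable def partialD (i : Fin m) (f : MvPowerSeries (Fin m) ℚ) : MvPowerSeries (Fin m) ℚ :=
  fun ν => ((ν i : ℚ) + 1) * MvPowerSeries.coeff (ν + Finsupp.single i 1) f

/-- `Z` is an invertible `n × n` matrix of G-functions in `m` variables with rational coefficients, `W = Z⁻¹`, which
solves the system `T ∂Z / ∂x_i = Z A_i`, `i = 1, …, m`. The degrees of `T` and `A_i` are at most `q`; the
absolute values of their coefficients and the growth of the coefficients of `Z` and of the denominators of the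
coefficients of `Z` and `W` are bounded by `B`. -/
structure Family (q : ℕ) (B : ℝ) (T : MvPolynomial (Fin m) ℤ) (A : Fin m → Fin n → Fin n → MvPolynomial (Fin m) ℤ)
    (Z W : Matrix (Fin n) (Fin n) (MvPowerSeries (Fin m) ℚ)) : Prop where
  /-- the degree of `T` -/
  degT : T.totalDegree ≤ q
  /-- the height of `T` -/
  sizeT : ∀ ν, |((T.coeff ν : ℤ) : ℝ)| ≤ B
  /-- the degrees of the `A_i` -/
  degA : ∀ i a b, (A i a b).totalDegree ≤ q
  /-- the heights of the `A_i` -/
  sizeA : ∀ i a b ν, |(((A i a b).coeff ν : ℤ) : ℝ)| ≤ B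
  /-- the differential equations -/
  ode : ∀ i a b, toQ T * partialD i (Z a b) = ∑ l, Z a l * toQ (A i l b)
  /-- `W` is the inverse of `Z` -/
  inv : W * Z = 1
  /-- the growth of the coefficients -/
  size : ∀ a b (ν : Fin m →₀ ℕ), |((MvPowerSeries.coeff ν (Z a b) : ℚ) : ℝ)| ≤ B ^ (∑ i, ν i + 1)
  /-- the growth of the common denominators of the coefficients -/
  den : ∀ k : ℕ, ∃ d : ℕ, 0 < d ∧ (d : ℝ) ≤ B ^ (k + 1) ∧ ∀ a b (ν : Fin m →₀ ℕ), ∑ i, ν i ≤ k →
    (∃ z : ℤ, (d : ℚ) * MvPowerSeries.coeff ν (Z a b) = z) ∧ ∃ z : ℤ, (d : ℚ) * MvPowerSeries.coeff ν (W a b) = z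

/-- the power series `f(x a)` in the variable `x`, the restriction of `f` to the line through `0` with direction `a` -/
noncomputable def restrict (a : Fin m → ℤ) (f : MvPowerSeries (Fin m) ℚ) : PowerSeries ℚ :=
  PowerSeries.mk fun k => ∑ ν ∈ (Finset.univ : Finset (Fin m)).finsuppAntidiag k,
    MvPowerSeries.coeff ν f * ∏ i, (a i : ℚ) ^ ν i

/-- the value `Z(a / b)`, that is, the value of the restriction of `Z` to the line at `x = 1 / b` -/
noncomputable def value (Z : Matrix (Fin n) (Fin n) (MvPowerSeries (Fin m) ℚ)) (a : Fin m → ℤ) (b : ℕ) :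
    Matrix (Fin n) (Fin n) ℂ :=
  Matrix.of fun i j => ((∑' k : ℕ, ((coeff k (restrict a (Z i j)) : ℚ) : ℝ) * (1 / (b : ℝ)) ^ k : ℝ) : ℂ)

/-- the restriction of `Z` to the line with direction `a`, over `ℂ` -/
noncomputable def onLine (a : Fin m → ℤ) (Z : Matrix (Fin n) (Fin n) (MvPowerSeries (Fin m) ℚ)) :
    Matrix (Fin n) (Fin n) (PowerSeries ℂ) :=
  Z.map fun f => PowerSeries.map (algebraMap ℚ ℂ) (restrict a f)

/-- `(X_1, …, X_N)` is an infinitesimal symmetry of the matrices `Y_1, …, Y_N` of power series: for all polynomial relations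
`R(x, Y_1(x), …, Y_N(x)) = 0` over `ℂ[x]` the derivative of `R(x, (1 + ε X_1) Y_1(x), …, (1 + ε X_N) Y_N(x))` at `ε = 0` is
zero. -/
def Symmetry (Y : Fin N → Matrix (Fin n) (Fin n) (PowerSeries ℂ)) (X : Fin N → Matrix (Fin n) (Fin n) ℂ) : Prop :=
  ∀ R : MvPolynomial (Fin N × Fin n × Fin n) (Polynomial ℂ),
    MvPolynomial.aeval (fun σ => Y σ.1 σ.2.1 σ.2.2) R = 0 →
    ∑ σ, MvPolynomial.aeval (fun σ => Y σ.1 σ.2.1 σ.2.2) (MvPolynomial.pderiv σ R) *
      ((X σ.1).map (PowerSeries.C (R := ℂ)) * Y σ.1) σ.2.1 σ.2.2 = 0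

end several


/-- the distance of the denominators `b` and `c` is larger than `2^(m+1) B (h + 2)` -/
def Far (m : ℕ) (B : ℝ) (h b c : ℕ) : Prop := 2 ^ (m + 1) * B * ((h : ℝ) + 2) < |(b : ℝ) - c|

/-- the tuple `b` of denominators is in the window `[b₀, b₀ + w]`, and its members are equal or far from each other -/
def InWindow {N : ℕ} (m : ℕ) (B : ℝ) (h w b₀ : ℕ) (b : Fin N → ℕ) : Prop :=
  (∀ j, b₀ ≤ b j ∧ b j ≤ b₀ + w) ∧ ∀ i j, b i = b j ∨ Far m B h (b i) (b j)

/-! ### Abelian varieties -/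

/-- rational matrices as complex matrices -/
def toC {n : ℕ} (M : Matrix (Fin n) (Fin n) ℚ) : Matrix (Fin n) (Fin n) ℂ := M.map fun x : ℚ => (x : ℂ)

section abelian
variable {g : ℕ} (A : AbVar g)

/-- The matrix of the periods of `A`: the integrals over the basis of the lattice of the invariant differentials `d z k`
and of the differentials of the second kind `d (∂ k (log θ 0))`, a basis of `H^1_dR (A / ℚ̄)`. -/
noncomputable def periods : Matrix (Fin (2 * g)) (Fin g ⊕ Fin g) ℂ := Matrix.of fun a i => A.dR i (Pi.single a 1)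

/-- `P` is the matrix of the comparison isomorphism `H^1_dR → H^1_B` of `A` for some basis `R` of the rational homology, in
which the Riemann form has the matrix `H` up to a rational factor, and some basis of the de Rham cohomology over `ℚ̄`
(given by `T`). -/
def Presents (H : Matrix (Fin (2 * g)) (Fin (2 * g)) ℚ) (P : Matrix (Fin (2 * g)) (Fin (2 * g)) ℂ) : Prop :=
  ∃ (R : Matrix (Fin (2 * g)) (Fin (2 * g)) ℚ) (T : Matrix (Fin g ⊕ Fin g) (Fin (2 * g)) ℂ) (q : ℚ),
    IsUnit R ∧ IsUnit P ∧ (∀ i j, IsAlgebraic ℚ (T i j)) ∧ q ≠ 0 ∧ P = toC R * periods A * T ∧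
    ∀ a b, ∑ c, ∑ d, (R a c : ℂ) * riemannForm A.lam A.η (A.lam c) (A.lam d) * (R b d : ℂ) = (q : ℂ) * (H a b : ℂ)

end abelian

/-! ### Torsors -/

/-- `S` is (the set of complex points of) a `K`-subtorsor of `GL_B = Iso (M_dR, M_B)`: it is closed under `x y⁻¹ z`, and
it is defined in `GL_B` by polynomials with coefficients in `K`. -/
def IsSubtorsor (K : Subfield ℂ) {B : Type} [Fintype B] [DecidableEq B] (S : Set (Matrix B B ℂ)) : Prop :=
  (∀ x ∈ S, ∀ y ∈ S, ∀ z ∈ S, x * y⁻¹ * z ∈ S) ∧ ∃ I : Set (MvPolynomial (B × B) K), ∀ x : Matrix B B ℂ, x ∈ S ↔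
    IsUnit x ∧ ∀ p ∈ I, MvPolynomial.eval (fun b => x b.1 b.2) (MvPolynomial.map (algebraMap K ℂ) p) = 0

/-- The group of the torsor `S` on the Betti side, the set of the `x y⁻¹` with `x`, `y` in `S`, is defined over `ℚ`: it is
stable under all automorphisms of the field of complex numbers. -/
def RationalGroup {B : Type} [Fintype B] [DecidableEq B] (S : Set (Matrix B B ℂ)) : Prop :=
  ∀ σ : ℂ ≃+* ℂ, ∀ x ∈ S, ∀ y ∈ S, ∃ x' ∈ S, ∃ y' ∈ S, (x * y⁻¹).map σ = x' * y'⁻¹

/-! ### The central fibre -/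

section centre
variable {n : ℕ}

/-- `x` is contained in a field of degree at most `D` over `ℚ` -/
def SmallDegree (D : ℕ) (x : ℂ) : Prop := ∃ K : Subfield ℂ, FiniteDimensional ℚ K ∧ Module.finrank ℚ K ≤ D ∧ x ∈ K

/-- the polarisation `H` of the central fibre is, on the de Rham side, given by a matrix `Q` with entries of degree at most
`D`: `C Q Cᵀ = 2 π i H` (`D = 1` for polarised abelian varieties over `ℚ` and bases of `H^1_dR` over `ℚ`) -/
def Polarised (D : ℕ) (H : Matrix (Fin n) (Fin n) ℚ) (C : Matrix (Fin n) (Fin n) ℂ) : Prop :=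
  ∃ Q : Matrix (Fin n) (Fin n) ℂ, (∀ i j, SmallDegree D (Q i j)) ∧ C * Q * Cᵀ = (2 * Real.pi * Complex.I : ℂ) • toC H

/-- The central fibre is special over a field `K` of degree at most `D`: it has an endomorphism, given by a rational matrix
`α` on `H_1`, which is not a rational number and is defined over `K` on the de Rham side; or there is a `K`-subtorsor `S` of the
torsor of all isomorphisms from `H^1_dR` to `H^1_B` which contains the matrix `C` of the periods, whose group is defined over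
`ℚ`, and which is not stable under the symplectic group of `H`. -/
def Special (D : ℕ) (H : Matrix (Fin n) (Fin n) ℚ) (C : Matrix (Fin n) (Fin n) ℂ) : Prop :=
  ∃ K : Subfield ℂ, FiniteDimensional ℚ K ∧ Module.finrank ℚ K ≤ D ∧
    ((∃ α : Matrix (Fin n) (Fin n) ℚ, (∀ c : ℚ, α ≠ c • 1) ∧ ∀ i j, (C⁻¹ * toC α * C) i j ∈ K) ∨
    ∃ S : Set (Matrix (Fin n) (Fin n) ℂ), IsSubtorsor K S ∧ RationalGroup S ∧ C ∈ S ∧
      ∃ γ : Matrix (Fin n) (Fin n) ℂ, γ * toC H * γᵀ = toC H ∧ ∃ x ∈ S, γ * x ∉ S)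

/-- `y` satisfies an equation `P(b, y) = 0` where `P` has rational coefficients and total degree at most `e` and `P(b, Y)` is
not the zero polynomial -/
def AlgebraicOver (e : ℕ) {ι : Type} (b : ι → ℂ) (y : ℂ) : Prop :=
  ∃ P : MvPolynomial (Option ι) ℚ, P.totalDegree ≤ e ∧ MvPolynomial.aeval (fun o : Option ι => o.elim y b) P = 0 ∧
    ∃ y' : ℂ, MvPolynomial.aeval (fun o : Option ι => o.elim y' b) P ≠ 0

/-- Numbers which are algebraic over the field generated by the `b_i` have this property for some `e`. -/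
theorem algebraicOver_of_isAlgebraic {ι : Type} {b : ι → ℂ} {y : ℂ}
    (h : IsAlgebraic (IntermediateField.adjoin ℚ (Set.range b)) y) : ∃ e, AlgebraicOver e b y :=
  Pool.Agent.H936.V.ag_of_alg h

/-- First condition on `M_0`: the entries of `C₀` and `C` are up to one common factor algebraic over the field generated by
`β_1, …, β_s`, and `s < n (n + 1) / 2 = dim Sp`. -/
def LinkedByFew (e : ℕ) {r s : ℕ} (β : Fin s → ℂ) (C : Matrix (Fin n) (Fin n) ℂ) (C₀ : Matrix (Fin r) (Fin r) ℂ) : Prop :=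
  s < (n + 1).choose 2 ∧ ∃ κ : ℂ, κ ≠ 0 ∧ (∀ i j, AlgebraicOver e β (κ * C₀ i j)) ∧ ∀ i j, AlgebraicOver e β (κ * C i j)

/-- the numbers `2 π i`, the entries of `C` and `β_1, …, β_s` -/
noncomputable def generators {s : ℕ} (β : Fin s → ℂ) (C : Matrix (Fin n) (Fin n) ℂ) :
    Option ((Fin n × Fin n) ⊕ Fin s) → ℂ :=
  fun o => o.elim (2 * Real.pi * Complex.I : ℂ) (Sum.elim (fun p => C p.1 p.2) β)

/-- Second condition on `M_0`: the entries of `C₀` are algebraic over the field which is generated by `2 π i`, the entries of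
`C` and `β_1, …, β_s`, and `s ≤ n - 3`. -/
def LinkedByCentre (e : ℕ) {r s : ℕ} (β : Fin s → ℂ) (C : Matrix (Fin n) (Fin n) ℂ) (C₀ : Matrix (Fin r) (Fin r) ℂ) :
    Prop :=
  s + 3 ≤ n ∧ ∀ i j, AlgebraicOver e (generators β C) (C₀ i j)

/-- The second condition holds in the absolute case `M_0 = ℚ(-1)^r`. -/
theorem linkedByCentre_tate {e r s : ℕ} (he : 1 ≤ e) (hs : s + 3 ≤ n) (β : Fin s → ℂ) (C : Matrix (Fin n) (Fin n) ℂ) :
    LinkedByCentre e β C ((2 * Real.pi * Complex.I : ℂ) • (1 : Matrix (Fin r) (Fin r) ℂ)) := by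
  refine ⟨hs, fun i j => ?_⟩
  rw [Matrix.smul_apply, Matrix.one_apply, smul_eq_mul]
  split_ifs
  · rw [mul_one]
    have h1 : (2 * Real.pi * Complex.I : ℂ) = generators β C none := rfl
    rw [h1]
    exact Pool.Agent.H936.V.ag_gen he (generators β C) none
  · rw [mul_zero]
    exact Pool.Agent.H936.V.ag_zero he _

/-- **Big monodromy**: for each number `c`, the product of the symplectic Lie algebras of `H` (on the Betti side) for the `j`
with `b_j = c` consists of infinitesimal symmetries of the restrictions of the matrices `C Z_j` with `b_j = c` to the lines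
through `0` with directions `a_j`. It is sufficient that the monodromy group of the sum of these families on the lines
is Zariski dense in the product of the symplectic groups; there is no condition on points with different denominators. -/
def BigMonodromy {m N : ℕ} (H : Matrix (Fin n) (Fin n) ℚ) (C : Matrix (Fin n) (Fin n) ℂ) (b : Fin N → ℕ)
    (a : Fin N → Fin m → ℤ) (Z : Fin N → Matrix (Fin n) (Fin n) (MvPowerSeries (Fin m) ℚ)) : Prop :=
  ∀ X : Fin N → Matrix (Fin n) (Fin n) ℂ, (∀ j, X j * toC H + toC H * (X j)ᵀ = 0) → ∀ c : ℕ,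
    Symmetry (fun j => if b j = c then onLine (a j) (Z j) else 1) (fun j => if b j = c then C⁻¹ * X j * C else 0)

end centre

section
variable {n N r : ℕ}

/-- the block matrix `x ⊕ X_1 ⊕ … ⊕ X_N` -/
def total (x : Matrix (Fin r) (Fin r) ℂ) (X : Fin N → Matrix (Fin n) (Fin n) ℂ) :
    Matrix (Fin r ⊕ (Fin n × Fin N)) (Fin r ⊕ (Fin n × Fin N)) ℂ :=
  Matrix.fromBlocks x 0 0 (Matrix.blockDiagonal X)

/-- The torsor `T_pol` of the isomorphisms `z ⊕ … ⊕ z ⊕ X_1 ⊕ … ⊕ X_N` of an `r`-fold sum of the object `ℚ(-1)` and of the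
`M_j` which respect the polarisations `Q_j` (de Rham) and `H` (Betti), with values in `ℚ(-w_j)`. -/
def torsorOf (r : ℕ) (H : Matrix (Fin n) (Fin n) ℚ) (Q : Fin N → Matrix (Fin n) (Fin n) ℂ) (w : Fin N → ℤ) :
    Set (Matrix (Fin r ⊕ (Fin n × Fin N)) (Fin r ⊕ (Fin n × Fin N)) ℂ) :=
  {y | ∃ z : ℂ, z ≠ 0 ∧ ∃ X : Fin N → Matrix (Fin n) (Fin n) ℂ, y = total (z • 1) X ∧
    ∀ j, X j * Q j * (X j)ᵀ = z ^ (w j) • toC H}

/-- The conclusion for one tuple of fibres; `P j` is the period matrix of the fibre with number `j`. -/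
def Good (D : ℕ) (C₀ : Matrix (Fin r) (Fin r) ℂ) (H : Matrix (Fin n) (Fin n) ℚ)
    (P : Fin N → Matrix (Fin n) (Fin n) ℂ) : Prop :=
  (∀ K : Subfield ℂ, FiniteDimensional ℚ K → Module.finrank ℚ K ≤ D →
    ∀ S : Set (Matrix (Fin r ⊕ (Fin n × Fin N)) (Fin r ⊕ (Fin n × Fin N)) ℂ), IsSubtorsor K S → RationalGroup S →
    total C₀ P ∈ S →
    -- 1: stability under the symplectic groups
    (∀ γ : Fin N → Matrix (Fin n) (Fin n) ℂ, (∀ j, γ j * toC H * (γ j)ᵀ = toC H) → ∀ x ∈ S, total 1 γ * x ∈ S) ∧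
    -- 2: the absolute case
    (0 < r → C₀ = (2 * Real.pi * Complex.I : ℂ) • 1 →
      ∀ (Q : Fin N → Matrix (Fin n) (Fin n) ℂ) (w : Fin N → ℤ), S ⊆ torsorOf r H Q w → S = torsorOf r H Q w)) ∧
  -- 3: the fibres are not special
  (∀ j, ¬ Special D H (P j)) ∧
  -- 4: there are no homomorphisms
  ∀ i j, i ≠ j → ∀ K : Subfield ℂ, FiniteDimensional ℚ K → Module.finrank ℚ K ≤ D → ∀ α : Matrix (Fin n) (Fin n) ℚ,
    (∀ k l, ((P i)⁻¹ * toC α * P j) k l ∈ K) → α = 0

end

/-- The theorem holds for all tuples of fibres near the central fibre for which the tuple of denominators and the matrix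
`C₀` satisfy the conditions `ok` and `lk`: for all families over bases of dimension `m`, with degree at most `q` and size at most
`B`, all numerators `a_j` of size at most `h` and all denominators `b_j` in the window. -/
def AllFibres {g : ℕ} (m N q D r : ℕ) (B : ℝ) (h w b₀ : ℕ) (H : Matrix (Fin (2 * g)) (Fin (2 * g)) ℚ)
    (C : Matrix (Fin (2 * g)) (Fin (2 * g)) ℂ) (ok : (Fin N → ℕ) → Prop) (lk : Matrix (Fin r) (Fin r) ℂ → Prop) : Prop :=
  ∀ b : Fin N → ℕ, InWindow m B h w b₀ b → ok b → ∀ C₀ : Matrix (Fin r) (Fin r) ℂ, IsUnit C₀ → lk C₀ →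
  ∀ (T : Fin N → MvPolynomial (Fin m) ℤ) (A : Fin N → Fin m → Fin (2 * g) → Fin (2 * g) → MvPolynomial (Fin m) ℤ)
    (Z W : Fin N → Matrix (Fin (2 * g)) (Fin (2 * g)) (MvPowerSeries (Fin m) ℚ)), (∀ j, Family q B (T j) (A j) (Z j) (W j)) →
  ∀ a : Fin N → Fin m → ℤ, (∀ j i, |a j i| ≤ h) → (∀ j, restrict (a j) (toQ (T j)) ≠ 0) → BigMonodromy H C b a Z →
    (∀ j, ∃ A : AbVar g, Presents A H (C * value (Z j) (a j) (b j))) →
    Good D C₀ H fun j => C * value (Z j) (a j) (b j)

/-! ### Auxiliary lemmas -/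

theorem base_of {m n q : ℕ} {B : ℝ} (hB : 1 ≤ B) {T : MvPolynomial (Fin m) ℤ}
    {A : Fin m → Fin n → Fin n → MvPolynomial (Fin m) ℤ} {Z W : Matrix (Fin n) (Fin n) (MvPowerSeries (Fin m) ℚ)}
    (h : Family q B T A Z W) :
    Pool.Agent.H885.GBaseU (N := 1) q B T (fun _ => A) (fun _ => Z) (fun _ => W) :=
  ⟨hB, h.degT, h.sizeT, fun _ => h.degA, fun _ => h.sizeA, fun _ => h.ode, fun _ => h.inv, fun _ => h.size, fun k => by
    obtain ⟨d, h1, h2, h3⟩ := h.den k
    exact ⟨d, h1, h2, fun _ => h3⟩⟩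

theorem sym_inf {m n N : ℕ} {Z : Fin N → Matrix (Fin n) (Fin n) (MvPowerSeries (Fin m) ℚ)} {a : Fin N → Fin m → ℤ}
    {b : Fin N → ℕ} {β : ℕ} {X : Fin N → Matrix (Fin n) (Fin n) ℂ}
    (h : Symmetry (fun j => if b j = β then onLine (a j) (Z j) else 1) (fun j => if b j = β then X j else 0)) :
    Pool.Agent.H885.InfT (Pool.Agent.H885.part b (fun j => Pool.Agent.H885.lineM (a j) (Z j)) β)
      (fun j => if b j = β then X j else 0) := by
  have h1 : Pool.Agent.H885.cent (Pool.Agent.H885.part b (fun j => Pool.Agent.H885.lineM (a j) (Z j)) β) =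
      fun σ : Fin N × Fin n × Fin n => (if b σ.1 = β then onLine (a σ.1) (Z σ.1) else 1) σ.2.1 σ.2.2 := by
    funext σ
    unfold Pool.Agent.H885.cent Pool.Agent.H885.part
    by_cases hb : b σ.1 = β
    · rw [if_pos hb, if_pos hb]
      rfl
    · rw [if_neg hb, if_neg hb, Matrix.one_apply, Matrix.one_apply]
      split_ifs
      · exact map_one _
      · exact map_zero _
  intro R hR
  rw [h1] at hR ⊢
  refine Eq.trans ?_ (h R hR)
  refine Finset.sum_congr rfl fun σ _ => ?_
  rw [Matrix.mul_apply]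
  rfl

theorem map_eq {n : ℕ} (M : Matrix (Fin n) (Fin n) ℚ) : toC M = Pool.Agent.Y119.HY.cm M := by
  ext i j
  rw [Pool.Agent.Y119.HY.cm_apply]
  rfl

theorem pres_of {g : ℕ} {A : AbVar g} {H : Matrix (Fin (2 * g)) (Fin (2 * g)) ℚ}
    {P : Matrix (Fin (2 * g)) (Fin (2 * g)) ℂ} (h : Presents A H P) : ∃ R, Pool.Agent.H936.SL.Pres A H P R := by
  obtain ⟨R, T, q, hR, hP, hT, hq, hPT, hE⟩ := h
  set e := Pool.Agent.R917.eqv g with he
  set Ts : Matrix (Fin (2 * g)) (Fin (2 * g)) ℂ := T.submatrix e.symm id with hTs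
  have h1 : P = Pool.Agent.Y119.HY.cm R * Pool.Agent.R917.PM A * Ts := by
    rw [hPT, map_eq, Matrix.mul_assoc, Matrix.mul_assoc]
    congr 1
    ext a b
    rw [Matrix.mul_apply, Matrix.mul_apply, ← Equiv.sum_comp e]
    refine Finset.sum_congr rfl fun i _ => ?_
    rw [Pool.Agent.R917.PM_apply, hTs, Matrix.submatrix_apply, Equiv.symm_apply_apply]
    rfl
  have h2 : IsUnit Ts.det := by
    have h3 := (Matrix.isUnit_iff_isUnit_det _).1 hP
    rw [h1, Matrix.det_mul] at h3
    exact isUnit_of_mul_isUnit_right h3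
  refine ⟨R, Ts, Ts⁻¹, q, (Matrix.isUnit_iff_isUnit_det _).1 hR, Matrix.mul_nonsing_inv _ h2, fun i j => hT _ _, hq, h1, ?_⟩
  ext a b
  have h3 := hE a b
  have h4 : ∀ c d, riemannForm A.lam A.η (A.lam c) (A.lam d) = ((Pool.Agent.H936.SL.EM A c d : ℚ) : ℂ) := by
    intro c d
    have h5 := A.rf_eq (Pi.single c 1) (Pi.single d 1)
    have h6 : ∀ c : Fin (2 * g), A.per (Pi.single c 1) = A.lam c := by
      intro c
      have h7 := A.per_bas c
      have h8 : A.bas c = Pi.single c 1 := Pi.basisFun_apply ℚ (Fin (2 * g)) c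
      rwa [h8] at h7
    rw [h6, h6] at h5
    exact h5
  simp only [h4] at h3
  have h5 : (((R * Pool.Agent.H936.SL.EM A * Rᵀ) a b : ℚ) : ℂ) = ((q * H a b : ℚ) : ℂ) := by
    push_cast
    rw [← h3, Matrix.mul_apply]
    push_cast
    rw [Finset.sum_comm]
    refine Finset.sum_congr rfl fun d _ => ?_
    rw [Matrix.mul_apply, Matrix.transpose_apply]
    push_cast
    rw [Finset.sum_mul]
  rw [Matrix.smul_apply, smul_eq_mul]
  exact_mod_cast h5

theorem ctr_of {g D : ℕ} {H : Matrix (Fin (2 * g)) (Fin (2 * g)) ℚ} {C : Matrix (Fin (2 * g)) (Fin (2 * g)) ℂ}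
    (hHu : IsUnit H) (hH : Hᵀ = -H) (hC : IsUnit C) (hP : Polarised D H C) :
    Pool.Agent.H936.V.Ctr (2 * Real.pi * Complex.I : ℂ) D H C := by
  obtain ⟨Q, hQ, hQ'⟩ := hP
  rw [map_eq] at hQ'
  exact ⟨hH, (Matrix.isUnit_iff_isUnit_det _).1 hHu, (Matrix.isUnit_iff_isUnit_det _).1 hC, Q, hQ, hQ'⟩

/-- special central fibres -/
theorem special_of {g D : ℕ} (hg : 0 < g) {A₀ : AbVar g} {H : Matrix (Fin (2 * g)) (Fin (2 * g)) ℚ}
    {C : Matrix (Fin (2 * g)) (Fin (2 * g)) ℂ} (hA : Presents A₀ H C) (hHu : IsUnit H) (hH : Hᵀ = -H) (hC : IsUnit C)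
    (h : Special D H C) : Pool.Agent.H936.V.SpecialC D H C := by
  have hd := (Matrix.isUnit_iff_isUnit_det _).1 hHu
  have hC' := (Matrix.isUnit_iff_isUnit_det _).1 hC
  obtain ⟨R, hp⟩ := pres_of hA
  obtain ⟨K, hK, hD, h⟩ := h
  have hKalg : ∀ x ∈ K, IsAlgebraic ℚ x := by
    intro x hx
    have : NumberField K := { to_charZero := inferInstance, to_finiteDimensional := hK }
    have h6 : IsAlgebraic ℚ (⟨x, hx⟩ : K) := Algebra.IsAlgebraic.isAlgebraic _
    exact h6.algebraMap (A := ℂ)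
  rcases h with ⟨α, hα, ha⟩ | ⟨S, hS, hSr, hm, γ, hγ, x, hx, hx'⟩
  · simp only [map_eq] at ha
    obtain ⟨S, hS⟩ := Pool.Agent.H936.V.spc_of_mat hg hp hH hd hC' hKalg hα ha
    exact ⟨A₀, R, K, S, hK, hD, hS⟩
  · have hHc := Pool.Agent.H936.G.cm_unit hd
    have hHct : (Pool.Agent.Y119.HY.cm H)ᵀ = -Pool.Agent.Y119.HY.cm H := by
      rw [← Pool.Agent.Y119.HY.cm_transpose, hH, Pool.Agent.Y119.HY.cm_neg]
    obtain ⟨u, hu, hu'⟩ := Pool.Agent.Y123.GN.quot_GB (X := 1) (Y := γ) (μ := 1)
      (B := Pool.Agent.Y119.HY.cm H) (Q := Pool.Agent.Y119.HY.cm H) one_ne_zero isUnit_one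
      (by rw [Matrix.one_mul, Matrix.transpose_one, Matrix.mul_one, one_smul])
      (by rw [one_smul, ← map_eq]; exact hγ) (Or.inl ⟨(Matrix.isUnit_iff_isUnit_det _).2 hHc, hHct⟩)
    refine ⟨A₀, R, K, S, hK, hD, hKalg, Pool.Agent.Y123.ST.subT_iff.1 hS, hSr, hm, hp, u, hu, x, hx, ?_⟩
    rw [Matrix.mul_one] at hu'
    rw [hu']
    exact hx'

/-- from the Lie algebra to the first two conclusions -/
theorem main_of {g N r : ℕ} {C₀ : Matrix (Fin r) (Fin r) ℂ} {H : Matrix (Fin (2 * g)) (Fin (2 * g)) ℚ}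
    (hHu : IsUnit H) (hHt : Hᵀ = -H) {P : Fin N → Matrix (Fin (2 * g)) (Fin (2 * g)) ℂ}
    {S : Set (Matrix (Fin r ⊕ (Fin (2 * g) × Fin N)) (Fin r ⊕ (Fin (2 * g) × Fin N)) ℂ)}
    (h : ∀ i, ∀ X ∈ Pool.Agent.Helper880_LF.spS (Pool.Agent.Y119.HY.cm H⁻¹),
        Pool.Agent.Helper880_R3.ib i X ∈ Pool.Agent.H936.SL.Lm S) {K : Subfield ℂ} (hK : FiniteDimensional ℚ K)
    (hS : IsSubtorsor K S) (hmem : total C₀ P ∈ S) :
      (∀ γ : Fin N → Matrix (Fin (2 * g)) (Fin (2 * g)) ℂ, (∀ j, γ j * toC H * (γ j)ᵀ = toC H) →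
        ∀ x ∈ S, total 1 γ * x ∈ S) ∧
      (0 < r → C₀ = (2 * Real.pi * Complex.I : ℂ) • 1 →
        ∀ (Q : Fin N → Matrix (Fin (2 * g)) (Fin (2 * g)) ℂ) (w : Fin N → ℤ), S ⊆ torsorOf r H Q w →
          S = torsorOf r H Q w) := by
  have hHd : IsUnit H.det := (Matrix.isUnit_iff_isUnit_det _).1 hHu
  have hS' := Pool.Agent.Y123.ST.subT_iff.1 hS
  have hHc : IsUnit (Pool.Agent.Y119.HY.cm H).det := Pool.Agent.H936.G.cm_unit hHd
  have hL : ∀ i, ∀ X ∈ Pool.Agent.Helper880_LF.spS (Pool.Agent.Y119.HY.cm H)⁻¹,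
      Pool.Agent.Helper880_R3.ib i X ∈ Pool.Agent.H936.SL.Lm S := by
    rw [Pool.Agent.H936.SL.cm_inv hHd]
    exact h
  have hHct : (Pool.Agent.Y119.HY.cm H)ᵀ = -Pool.Agent.Y119.HY.cm H := by
    rw [← Pool.Agent.Y119.HY.cm_transpose, hHt, Pool.Agent.Y119.HY.cm_neg]
  have hSpf : Pool.Agent.Y123.GN.Spf (Pool.Agent.Y119.HY.cm H) :=
    ⟨(Matrix.isUnit_iff_isUnit_det _).2 hHc, hHct⟩
  have hgrp : ∀ γ : Fin N → (Matrix (Fin (2 * g)) (Fin (2 * g)) ℂ)ˣ,
      (∀ j, γ j ∈ Pool.Agent.Y123.GN.GB (Pool.Agent.Y119.HY.cm H)) →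
      ∀ x ∈ S, total 1 (fun j => (γ j : Matrix (Fin (2 * g)) (Fin (2 * g)) ℂ)) * x ∈ S := fun γ hγ x hx =>
    Pool.Agent.H936.SL.sp_stab hHct hHc hS' hL γ hγ hx
  refine ⟨fun γ hγ x hx => ?_, fun hr hC₀ Q w hST => ?_⟩
  · choose u hu hu' using fun j => Pool.Agent.Y123.GN.quot_GB (X := 1) (Y := γ j) (μ := 1)
      (B := Pool.Agent.Y119.HY.cm H) (Q := Pool.Agent.Y119.HY.cm H) one_ne_zero isUnit_one
      (by rw [Matrix.one_mul, Matrix.transpose_one, Matrix.mul_one, one_smul])
      (by rw [one_smul, ← map_eq]; exact hγ j) (Or.inl hSpf)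
    have h1 := hgrp u hu x hx
    have h2 : (fun j => (u j : Matrix (Fin (2 * g)) (Fin (2 * g)) ℂ)) = γ := by
      funext j
      have h3 := hu' j
      rwa [Matrix.mul_one] at h3
    rwa [h2] at h1
  · have hKalg : ∀ x ∈ K, IsAlgebraic ℚ x := by
      intro x hx
      have : NumberField K := { to_charZero := inferInstance, to_finiteDimensional := hK }
      have h6 : IsAlgebraic ℚ (⟨x, hx⟩ : K) := Algebra.IsAlgebraic.isAlgebraic _
      exact h6.algebraMap (A := ℂ)
    have hFT : torsorOf r H Q w = Pool.Agent.Helper880_R3.FT r (Pool.Agent.Y119.HY.cm H) Q w (fun _ => 0) fun _ => 1 := by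
      ext y
      constructor
      · rintro ⟨z, hz, X, hy, hX⟩
        refine ⟨z, hz, X, hy, fun j => ⟨?_, Or.inl hSpf⟩⟩
        rw [← map_eq]
        exact hX j
      · rintro ⟨z, hz, X, hy, hX⟩
        refine ⟨z, hz, X, hy, fun j => ?_⟩
        rw [map_eq]
        exact (hX j).1
    rw [hC₀] at hmem
    rw [hFT] at hST ⊢
    exact Pool.Agent.Helper880_R3.absolute hKalg hr hS' hmem hgrp hST

/-- from the Lie algebra to the conclusion -/
theorem good_of {g N D r : ℕ} (hg : 0 < g) {C₀ : Matrix (Fin r) (Fin r) ℂ} (hC₀ : IsUnit C₀)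
    {H : Matrix (Fin (2 * g)) (Fin (2 * g)) ℚ}
    (hHu : IsUnit H) (hHt : Hᵀ = -H) {P : Fin N → Matrix (Fin (2 * g)) (Fin (2 * g)) ℂ}
    (hpres : ∀ j, ∃ A : AbVar g, Presents A H (P j))
    (h : ∀ K : Subfield ℂ, FiniteDimensional ℚ K → Module.finrank ℚ K ≤ D →
      ∀ S : Set (Matrix (Fin r ⊕ (Fin (2 * g) × Fin N)) (Fin r ⊕ (Fin (2 * g) × Fin N)) ℂ), IsSubtorsor K S →
      RationalGroup S → total C₀ P ∈ S → ∀ i, ∀ X ∈ Pool.Agent.Helper880_LF.spS (Pool.Agent.Y119.HY.cm H⁻¹),
        Pool.Agent.Helper880_R3.ib i X ∈ Pool.Agent.H936.SL.Lm S) : Good D C₀ H P := by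
  have hHd : IsUnit H.det := (Matrix.isUnit_iff_isUnit_det _).1 hHu
  have hPu : ∀ j, IsUnit (P j) := fun j => by
    obtain ⟨A, R, T, q, hR, hP, h1⟩ := hpres j
    exact hP
  have main : ∀ K : Subfield ℂ, FiniteDimensional ℚ K → Module.finrank ℚ K ≤ D →
      ∀ S : Set (Matrix (Fin r ⊕ (Fin (2 * g) × Fin N)) (Fin r ⊕ (Fin (2 * g) × Fin N)) ℂ), IsSubtorsor K S →
      RationalGroup S → total C₀ P ∈ S →
      (∀ γ : Fin N → Matrix (Fin (2 * g)) (Fin (2 * g)) ℂ, (∀ j, γ j * toC H * (γ j)ᵀ = toC H) →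
        ∀ x ∈ S, total 1 γ * x ∈ S) ∧
      (0 < r → C₀ = (2 * Real.pi * Complex.I : ℂ) • 1 →
        ∀ (Q : Fin N → Matrix (Fin (2 * g)) (Fin (2 * g)) ℂ) (w : Fin N → ℤ), S ⊆ torsorOf r H Q w →
          S = torsorOf r H Q w) := by
    intro K hK hKD S hS hSr hmem
    exact main_of hHu hHt (h K hK hKD S hS hSr hmem) hK hS hmem
  have hstab : Pool.Agent.H936.V.Stab D H C₀ P := by
    intro K hK hKD S hS hSr hmem γ hγ x hx
    refine (main K hK hKD S (Pool.Agent.Y123.ST.subT_iff.2 hS) hSr hmem).1 γ (fun j => ?_) x hx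
    rw [map_eq]
    exact hγ j
  refine ⟨main, fun j hs => ?_, fun i j hij K hK hKD α ha => ?_⟩
  · obtain ⟨A, hA⟩ := hpres j
    exact Pool.Agent.H936.V.not_spc hC₀ hPu hstab j (special_of hg hA hHu hHt (hPu j) hs)
  · simp only [map_eq] at ha
    exact Pool.Agent.H936.V.no_hom hHt hHd hC₀ hPu hstab hij hK hKD ha

/-- the tuple of fibres -/
theorem tup_of {g m N q D r : ℕ} {B : ℝ} {h w b₀ : ℕ} (hB : 1 ≤ B) {H : Matrix (Fin (2 * g)) (Fin (2 * g)) ℚ}
    {C : Matrix (Fin (2 * g)) (Fin (2 * g)) ℂ} (hHu : IsUnit H) {b : Fin N → ℕ} (hb : InWindow m B h w b₀ b)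
    {C₀ : Matrix (Fin r) (Fin r) ℂ} (hC₀ : IsUnit C₀) {T : Fin N → MvPolynomial (Fin m) ℤ}
    {A : Fin N → Fin m → Fin (2 * g) → Fin (2 * g) → MvPolynomial (Fin m) ℤ}
    {Z W : Fin N → Matrix (Fin (2 * g)) (Fin (2 * g)) (MvPowerSeries (Fin m) ℚ)} (hF : ∀ j, Family q B (T j) (A j) (Z j) (W j))
    {a : Fin N → Fin m → ℤ} (ha : ∀ j i, |a j i| ≤ h) (hTa : ∀ j, restrict (a j) (toQ (T j)) ≠ 0)
    (hI : BigMonodromy H C b a Z) (hpres : ∀ j, ∃ A : AbVar g, Presents A H (C * value (Z j) (a j) (b j)))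
    {K : Subfield ℂ} (hK : FiniteDimensional ℚ K) (hKD : Module.finrank ℚ K ≤ D)
    {S : Set (Matrix (Fin r ⊕ (Fin (2 * g) × Fin N)) (Fin r ⊕ (Fin (2 * g) × Fin N)) ℂ)} (hS : IsSubtorsor K S)
    (hSr : RationalGroup S) (hmem : total C₀ (fun j => C * value (Z j) (a j) (b j)) ∈ S) :
    (⟨b, C₀, T, A, Z, W, a, K, S⟩ : Pool.Agent.H936.V.Tup m N g r).OK q D B h w b₀ H C where
  b_mem := hb.1
  sep := hb.2
  c0 := ((Matrix.isUnit_iff_isUnit_det _).1 hC₀).ne_zero
  base j := base_of hB (hF j)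
  ha := ha
  line := hTa
  inf X hX β := by
    refine sym_inf (X := fun j => C⁻¹ * X j * C) (hI X (fun j => ?_) β)
    have h1 := hX j
    rw [← Pool.Agent.H936.SL.cm_inv ((Matrix.isUnit_iff_isUnit_det _).1 hHu),
      ← Pool.Agent.H936.SL.lieB_eq (Pool.Agent.H936.G.cm_unit ((Matrix.isUnit_iff_isUnit_det _).1 hHu)),
      Pool.Agent.Helper880_R3.mem_lieB] at h1
    rw [map_eq]
    exact h1.2
  fd := hK
  deg := hKD
  tor := Pool.Agent.Y123.ST.subT_iff.1 hS
  rat := hSr
  mem := hmem
  pres j := by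
    obtain ⟨A, hA⟩ := hpres j
    obtain ⟨R, hR⟩ := pres_of hA
    exact ⟨A, R, hR⟩

/-- **The theorem.** -/
theorem result (g m N M q D r s e : ℕ) (hg : 2 ≤ g) (hN : 0 < N) :
    ∃ E : ℕ, ∀ (B : ℝ) (h w b₀ : ℕ), 1 ≤ B → (2 * B * ((h : ℝ) + w + 2)) ^ E ≤ (b₀ : ℝ) →
    ∀ (H : Matrix (Fin (2 * g)) (Fin (2 * g)) ℚ) (C : Matrix (Fin (2 * g)) (Fin (2 * g)) ℂ) (β : Fin s → ℂ),
    IsUnit H → Hᵀ = -H → IsUnit C → Polarised D H C →
    -- 1: all fibres near a special central fibre
    ((∃ A₀ : AbVar g, Presents A₀ H C) → Special D H C →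
      AllFibres m N q D r B h w b₀ H C (fun _ => True) fun C₀ => LinkedByFew e β C C₀ ∨ LinkedByCentre e β C C₀) ∧
    -- 2: almost all fibres near an arbitrary central fibre
    ∃ F : Finset ℕ, F.card ≤ M ∧ AllFibres m N q D r B h w b₀ H C
      (fun b => (Finset.univ.image b).card ≤ M ∧ ∀ j, ∀ c ∈ F, Far m B h (b j) c) (LinkedByCentre e β C) := by
  have hθ : (2 * Real.pi * Complex.I : ℂ) ≠ 0 := Complex.two_pi_I_ne_zero
  obtain ⟨E₁, hE₁⟩ := Pool.Agent.H936.V.finA hg m N r s q D e hθ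
  obtain ⟨E₂, hE₂⟩ := Pool.Agent.H936.V.finB hg m N r s q D e M hN hθ
  refine ⟨E₁ + E₂, fun B h w b₀ hB hbig H C β hHu hHt hC hP => ?_⟩
  have hx1 : (1 : ℝ) ≤ 2 * B * ((h : ℝ) + w + 2) := by
    have hh0 : (0 : ℝ) ≤ h := by positivity
    have hw0 : (0 : ℝ) ≤ w := by positivity
    nlinarith
  have hbig' : ∀ E, E ≤ E₁ + E₂ → (2 * B * ((h : ℝ) + w + 2)) ^ E ≤ (b₀ : ℝ) := fun E hE =>
    (pow_le_pow_right₀ hx1 hE).trans hbig
  have hctr := ctr_of hHu hHt hC hP
  refine ⟨fun ⟨A₀, hA₀⟩ hS b hb _ C₀ hC₀ hl T A Z W hF a ha hTa hI hpres => ?_, ?_⟩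
  · refine good_of (by omega) hC₀ hHu hHt hpres fun K hK hKD S hS' hSr hmem => ?_
    exact hE₁ B h w b₀ hB (hbig' _ (by omega)) H C β hctr (special_of (by omega) hA₀ hHu hHt hC hS)
      ⟨b, C₀, T, A, Z, W, a, K, S⟩ (tup_of hB hHu hb hC₀ hF ha hTa hI hpres hK hKD hS' hSr hmem) hl
  · obtain ⟨F, hFM, hF'⟩ := hE₂ B h w b₀ hB (hbig' _ (by omega)) H C β hctr
    refine ⟨F, hFM, fun b hb hok C₀ hC₀ hl T A Z W hF a ha hTa hI hpres => ?_⟩
    refine good_of (by omega) hC₀ hHu hHt hpres fun K hK hKD S hS' hSr hmem => ?_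
    exact hF' ⟨b, C₀, T, A, Z, W, a, K, S⟩ (tup_of hB hHu hb hC₀ hF ha hTa hI hpres hK hKD hS' hSr hmem) hok.1 hok.2 hl

end Pool.Agent.Results.MP_f11a48_ag.SpecialFibresRepel
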